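import Pool.Agent.Helper34.LL.Defs

/-!
# Project LL, module LF: union bound
-/

set_option autoImplicit false

namespace Pool.Agent.Helper51.LL

open Pool.Agent.Helper34.LL Pool.Agent.Helper34.SD Pool.Agent.Helper34.PT

private theorem words_eq (n : ℕ) : {w : List Bool | w.length = n} =
    (fun v : List.Vector Bool n => v.toList) '' Set.univ := by
  ext w
  constructor
  · intro hw
    exact ⟨⟨w, hw⟩, Set.mem_univ _, rfl⟩
  · rintro ⟨v, -, rfl⟩
    exact v.2

private theorem words_fin (n : ℕ) : {w : List Bool | w.length = n}.Finite := by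
  rw [words_eq]
  exact Set.finite_univ.image _

private theorem card_words (n : ℕ) : {w : List Bool | w.length = n}.ncard = 2 ^ n := by
  rw [words_eq, Set.ncard_image_of_injective _ List.Vector.toList_injective, Set.ncard_univ,
    Nat.card_eq_fintype_card]
  have h := card_vector (α := Bool) n
  rw [Fintype.card_bool] at h
  exact h

/-- **LF.** -/
theorem hLF : Stmt_LD → Stmt_LE → Stmt_LF := by
  intro hD hE C ε hε
  obtain ⟨m, η, n1, hη, hE'⟩ := hE C ε hε
  choose K hK using fun T : ℕ => hD T η hη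
  let J : Type := Σ T : Fin (m + 1), List.Vector (Fin 3) (T.1 + 1)
  let _ : Fintype J := inferInstanceAs (Fintype (Σ T : Fin (m + 1), List.Vector (Fin 3) (T.1 + 1)))
  set M : ℝ := ∑ j : J, |K j.1.1| with hM
  have hM0 : 0 ≤ M := Finset.sum_nonneg fun j _ => abs_nonneg _
  refine ⟨max n1 (max 1 ⌈M / ε⌉₊), fun n hn => ?_⟩
  have hn1 : n1 ≤ n := le_trans (le_max_left _ _) hn
  have hn2 : 1 ≤ n := le_trans (le_trans (le_max_left _ _) (le_max_right _ _)) hn
  have hn3 : M / ε ≤ n := le_trans (Nat.le_ceil _)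
    (by exact_mod_cast le_trans (le_trans (le_max_right _ _) (le_max_right _ _)) hn)
  have hnpos : (0 : ℝ) < n := by exact_mod_cast hn2
  set A : Set (List Bool) := {w : List Bool | w.length = n ∧ ∀ t ≤ C * n, ∃ w' : List Bool,
    run t w = some w' ∧ (1 - ε) * n ≤ w'.length ∧ (w'.length : ℝ) ≤ (1 + ε) * n} with hA
  let B : J → Set (List Bool) := fun j => {w : List Bool | w.length = n ∧
      ∃ p ≤ n, η * n < |(FF j.2.1 (w.take p) : ℝ) - p|}
  have hAf : A.Finite := (words_fin n).subset fun w hw => hw.1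
  have hUf : (⋃ j, B j).Finite := (words_fin n).subset (Set.iUnion_subset fun j w hw => hw.1)
  have hsub : {w : List Bool | w.length = n} ⊆ A ∪ ⋃ j, B j := by
    intro w hw
    have hw' : w.length = n := hw
    by_cases hU : w ∈ ⋃ j, B j
    · exact Or.inr hU
    · left
      refine ⟨hw', ?_⟩
      have h := hE' w (by rw [hw']; exact hn1) ?_
      · rw [hw'] at h
        exact h
      · intro T hT x hx p hp
        rw [hw'] at hp ⊢
        by_contra hlt
        apply hU
        rw [Set.mem_iUnion]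
        exact ⟨⟨⟨T, Nat.lt_succ_of_le hT⟩, ⟨x, hx⟩⟩, hw', p, hp, not_le.1 hlt⟩
  have h1 : 2 ^ n ≤ A.ncard + (⋃ j, B j).ncard := by
    rw [← card_words n]
    exact le_trans (Set.ncard_le_ncard hsub (hAf.union hUf)) (Set.ncard_union_le _ _)
  have h2 : (⋃ j, B j).ncard ≤ ∑ j, (B j).ncard := Set.ncard_iUnion_le_of_fintype B
  have h3 : ∀ j : J, ((B j).ncard : ℝ) ≤ |K j.1.1| * (2 ^ n / n) := by
    intro j
    have h := hK j.1.1 n hn2 j.2.1 j.2.2
    have h4 : K j.1.1 * 2 ^ n / n ≤ |K j.1.1| * (2 ^ n / n) := by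
      rw [mul_div_assoc]
      exact mul_le_mul_of_nonneg_right (le_abs_self _) (by positivity)
    exact le_trans h h4
  have h5 : (((⋃ j, B j).ncard : ℕ) : ℝ) ≤ ε * 2 ^ n := by
    calc (((⋃ j, B j).ncard : ℕ) : ℝ) ≤ ((∑ j, (B j).ncard : ℕ) : ℝ) := by exact_mod_cast h2
      _ = ∑ j, ((B j).ncard : ℝ) := by push_cast; rfl
      _ ≤ ∑ j : J, |K j.1.1| * (2 ^ n / n) := Finset.sum_le_sum fun j _ => h3 j
      _ = M * (2 ^ n / n) := by rw [hM, Finset.sum_mul]
      _ = (M / n) * 2 ^ n := by ring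
      _ ≤ ε * 2 ^ n := by
        refine mul_le_mul_of_nonneg_right ?_ (by positivity)
        rw [div_le_iff₀ hnpos]
        rw [div_le_iff₀ hε] at hn3
        linarith
  have h6 : (2 : ℝ) ^ n ≤ (A.ncard : ℝ) + (((⋃ j, B j).ncard : ℕ) : ℝ) := by exact_mod_cast h1
  linarith

end Pool.Agent.Helper51.LL
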